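import Mathlib
import Pool.Agent.H55.EquivDeg

/-!
# Splitting vertices: dense graphs of a class closed under locally injective homomorphisms can be
taken with bounded degrees, for every exponent
-/

set_option autoImplicit false
set_option linter.all false

namespace Pool.Agent.H46.EX

open Finset Classical SimpleGraph Pool.Agent.H55

/-- the rank of `u` among the neighbours of `v` -/
noncomputable def rk {V : Type} [Fintype V] (F : SimpleGraph V) (v u : V) : ℕ :=
  if h : u ∈ nb F v then ((nb F v).equivFin ⟨u, h⟩ : ℕ) else 0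

lemma rk_lt {V : Type} [Fintype V] {F : SimpleGraph V} {v u : V} (h : F.Adj v u) :
    rk F v u < (nb F v).card := by
  unfold rk
  rw [dif_pos (mem_nb.mpr h)]
  exact Fin.is_lt _

lemma rk_inj {V : Type} [Fintype V] {F : SimpleGraph V} {v u u' : V} (h : F.Adj v u)
    (h' : F.Adj v u') (he : rk F v u = rk F v u') : u = u' := by
  unfold rk at he
  rw [dif_pos (mem_nb.mpr h), dif_pos (mem_nb.mpr h')] at he
  have := (nb F v).equivFin.injective (Fin.ext he)
  exact congrArg Subtype.val this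

/-- every vertex `v` is split into `⌊deg v / D⌋ + 1` vertices of degree at most `D` -/
noncomputable def split {V : Type} [Fintype V] (F : SimpleGraph V) (D : ℕ) :
    SimpleGraph (Σ v : V, Fin ((nb F v).card / D + 1)) where
  Adj x y := F.Adj x.1 y.1 ∧ (x.2 : ℕ) = rk F x.1 y.1 / D ∧ (y.2 : ℕ) = rk F y.1 x.1 / D
  symm := ⟨fun x y h => ⟨h.1.symm, h.2.2, h.2.1⟩⟩
  loopless := ⟨fun x h => F.loopless.irrefl x.1 h.1⟩

lemma split_locInj {V : Type} [Fintype V] (F : SimpleGraph V) (D : ℕ) :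
    LocInj (split F D) F Sigma.fst where
  hom x y h := h.1
  inj x y y' h h' he := by
    obtain ⟨u, j⟩ := y
    obtain ⟨u', j'⟩ := y'
    have he' : u = u' := he
    subst he'
    congr 1
    exact Fin.ext (h.2.2.trans h'.2.2.symm)

lemma split_deg {V : Type} [Fintype V] (F : SimpleGraph V) {D : ℕ} (hD : 1 ≤ D)
    (x : Σ v : V, Fin ((nb F v).card / D + 1)) : (nb (split F D) x).card ≤ D := by
  have h : (nb (split F D) x).card ≤ (Finset.Ico ((x.2 : ℕ) * D) ((x.2 : ℕ) * D + D)).card := by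
    refine Finset.card_le_card_of_injOn (fun y => rk F x.1 y.1) ?_ ?_
    · intro y hy
      have hy := mem_nb.mp (Finset.mem_coe.mp hy)
      have h2 : (x.2 : ℕ) = rk F x.1 y.1 / D := hy.2.1
      rw [Finset.mem_coe, Finset.mem_Ico, h2]
      constructor
      · exact Nat.div_mul_le_self _ _
      · have h3 := Nat.div_add_mod (rk F x.1 y.1) D
        have h4 := Nat.mod_lt (rk F x.1 y.1) (show D > 0 by omega)
        rw [mul_comm] at h3
        show rk F x.1 y.1 < _
        omega
    · intro y hy y' hy' he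
      have h1 := mem_nb.mp (Finset.mem_coe.mp hy)
      have h1' := mem_nb.mp (Finset.mem_coe.mp hy')
      exact (split_locInj F D).inj x y y' h1 h1' (rk_inj h1.1 h1'.1 he)
  simpa using h

lemma vol_split {V : Type} [Fintype V] (F : SimpleGraph V) (D : ℕ) :
    vol F ≤ vol (split F D) := by
  rw [vol, vol, Fintype.sum_sigma]
  refine Finset.sum_le_sum fun v _ => ?_
  rw [← Finset.card_sigma]
  refine Finset.card_le_card_of_surjOn (fun p => p.2.1) ?_
  intro u hu
  have hu : F.Adj v u := mem_nb.mp (Finset.mem_coe.mp hu)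
  have b1 : rk F v u / D < (nb F v).card / D + 1 :=
    Nat.lt_succ_of_le (Nat.div_le_div_right (rk_lt hu).le)
  have b2 : rk F u v / D < (nb F u).card / D + 1 :=
    Nat.lt_succ_of_le (Nat.div_le_div_right (rk_lt hu.symm).le)
  refine ⟨⟨⟨rk F v u / D, b1⟩, ⟨u, ⟨rk F u v / D, b2⟩⟩⟩, ?_, rfl⟩
  rw [Finset.mem_coe, Finset.mem_sigma]
  exact ⟨Finset.mem_univ _, mem_nb.mpr ⟨hu, rfl, rfl⟩⟩

lemma card_split {V : Type} [Fintype V] (F : SimpleGraph V) (D : ℕ) :
    Fintype.card (Σ v : V, Fin ((nb F v).card / D + 1)) * D ≤ Fintype.card V * D + vol F := by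
  rw [Fintype.card_sigma]
  simp only [Fintype.card_fin]
  rw [Finset.sum_mul, vol]
  calc ∑ v, ((nb F v).card / D + 1) * D ≤ ∑ v : V, (D + (nb F v).card) := by
        refine Finset.sum_le_sum fun v _ => ?_
        have := Nat.div_mul_le_self (nb F v).card D
        rw [add_mul]
        omega
    _ = _ := by rw [Finset.sum_add_distrib, Finset.sum_const, Finset.card_univ, smul_eq_mul]

lemma exists_sub {V : Type} [Finite V] (G : SimpleGraph V) (k : ℕ) (hk : k ≤ G.edgeSet.ncard) :
    ∃ F ≤ G, F.edgeSet.ncard = k := by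
  obtain ⟨s, hs, hk⟩ := Set.exists_subset_card_eq hk
  have h1 : s \ {e | e.IsDiag} = s := by
    ext e
    simp only [Set.mem_diff, Set.mem_setOf_eq, and_iff_left_iff_imp]
    intro he
    exact G.not_isDiag_of_mem_edgeSet (hs he)
  refine ⟨SimpleGraph.fromEdgeSet s, ?_, ?_⟩
  · rw [← SimpleGraph.edgeSet_subset_edgeSet, SimpleGraph.edgeSet_fromEdgeSet]
    exact Set.diff_subset.trans hs
  · rw [SimpleGraph.edgeSet_fromEdgeSet]
    rw [show (s \ Sym2.diagSet : Set (Sym2 V)) = s from h1]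
    exact hk

lemma vol_emb {V W : Type} [Fintype V] [Fintype W] (G : SimpleGraph V) (e : V ↪ W) :
    vol G ≤ vol (G.map e) := by
  have h : ∀ a : V, (nb G a).card ≤ (nb (G.map e) (e a)).card := by
    intro a
    refine Finset.card_le_card_of_injOn e ?_ (e.injective.injOn)
    intro b hb
    rw [Finset.mem_coe, mem_nb] at hb ⊢
    exact (SimpleGraph.map_adj_apply (f := e)).mpr hb
  calc vol G ≤ ∑ a : V, (nb (G.map e) (e a)).card := Finset.sum_le_sum fun a _ => h a
    _ = ∑ w ∈ (univ : Finset V).map e, (nb (G.map e) w).card := by rw [Finset.sum_map]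
    _ ≤ vol (G.map e) := Finset.sum_le_sum_of_subset (Finset.subset_univ _)

lemma deg_emb {V W : Type} [Fintype V] [Fintype W] (G : SimpleGraph V) (e : V ↪ W) (D : ℕ)
    (h : ∀ v, (nb G v).card ≤ D) (w : W) : (nb (G.map e) w).card ≤ D := by
  rcases (nb (G.map e) w).eq_empty_or_nonempty with h0 | ⟨b, hb⟩
  · rw [h0]; simp
  · rw [mem_nb, SimpleGraph.map_adj] at hb
    obtain ⟨a, b', _, ha, _⟩ := hb
    refine le_trans (Finset.card_le_card_of_surjOn e ?_) (h a)
    intro c hc
    rw [Finset.mem_coe, mem_nb, SimpleGraph.map_adj] at hc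
    obtain ⟨a', c', hac, ha', hc'⟩ := hc
    have : a' = a := e.injective (ha'.trans ha.symm)
    subst this
    exact ⟨c', Finset.mem_coe.mpr (mem_nb.mpr hac), hc'⟩

lemma locInj_emb {V W : Type} [Nonempty V] (G : SimpleGraph V) (e : V ↪ W) :
    LocInj (G.map e) G (Function.invFun e) where
  hom x y h := by
    rw [SimpleGraph.map_adj] at h
    obtain ⟨a, b, hab, rfl, rfl⟩ := h
    rw [Function.leftInverse_invFun e.injective, Function.leftInverse_invFun e.injective]
    exact hab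
  inj x y y' h h' he := by
    rw [SimpleGraph.map_adj] at h h'
    obtain ⟨a, b, hab, rfl, rfl⟩ := h
    obtain ⟨a', b', hab', _, rfl⟩ := h'
    rw [Function.leftInverse_invFun e.injective, Function.leftInverse_invFun e.injective] at he
    rw [he]

/-- **Dense graphs with bounded degrees**, for every exponent and without an upper bound. -/
theorem dense_bdd {P : ∀ V : Type, SimpleGraph V → Prop} (hP : LIClass P) (α : ℝ)
    (hα : 1 < α) (hα2 : α < 2) (h : Dense P α) :
    ∃ c l : ℝ, 0 < c ∧ 0 < l ∧ ∃ N₁ : ℕ, ∀ N : ℕ, N₁ ≤ N → ∃ G : SimpleGraph (Fin N),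
      P (Fin N) G ∧ c * (N : ℝ) ^ α ≤ vol G ∧
        ∀ x, ((nb G x).card : ℝ) ≤ l * (N : ℝ) ^ (α - 1) := by
  obtain ⟨c, hc, N₀, hN₀⟩ := h
  refine ⟨c / 32, c + 1, by positivity, by positivity, 4 * N₀ + 8, fun N hN => ?_⟩
  set n : ℕ := N / 4 with hn
  have hn1 : N₀ ≤ n := by omega
  have hn2 : 2 ≤ n := by omega
  have hn3 : 4 * n ≤ N := by omega
  have hn4 : N ≤ 8 * n := by omega
  have hn0 : (0 : ℝ) < n := by exact_mod_cast (by omega : 0 < n)
  have hNn : (n : ℝ) ≤ N := by exact_mod_cast (by omega : n ≤ N)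
  have hN0 : (0 : ℝ) < N := lt_of_lt_of_le hn0 hNn
  obtain ⟨G, hPG, hG⟩ := hN₀ n hn1
  set k : ℕ := ⌈c * (n : ℝ) ^ α⌉₊ with hk
  have hkG : k ≤ G.edgeSet.ncard := Nat.ceil_le.mpr hG
  obtain ⟨F, hFG, hFk⟩ := exists_sub G k hkG
  have hPF : P (Fin n) F := hP.mono hFG hPG
  set D : ℕ := ⌈c * (n : ℝ) ^ (α - 1)⌉₊ with hD
  have hD1 : 1 ≤ D := Nat.ceil_pos.mpr (by positivity)
  have hvF : vol F = 2 * k := by rw [vol_eq, hFk]
  -- the number of vertices
  have e1 : (n : ℝ) ^ (α - 1) * n = (n : ℝ) ^ α := by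
    rw [Real.rpow_sub_one hn0.ne']
    field_simp
  have hkD : k ≤ D * n + 1 := by
    have h1 : (k : ℝ) < c * (n : ℝ) ^ α + 1 := Nat.ceil_lt_add_one (by positivity)
    have h2 : c * (n : ℝ) ^ (α - 1) ≤ D := Nat.le_ceil _
    have h3 : c * (n : ℝ) ^ α ≤ D * n := by
      rw [← e1, ← mul_assoc]
      exact mul_le_mul_of_nonneg_right h2 hn0.le
    have h4 : (k : ℝ) < ((D * n + 1 : ℕ) : ℝ) := by push_cast; linarith
    exact_mod_cast h4.le
  have hcard : Fintype.card (Σ v : Fin n, Fin ((nb F v).card / D + 1)) ≤ 4 * n := by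
    have h1 := card_split F D
    rw [hvF, Fintype.card_fin] at h1
    have h2 : 2 ≤ D * n := by nlinarith
    have h3 : Fintype.card (Σ v : Fin n, Fin ((nb F v).card / D + 1)) * D ≤ (4 * n) * D := by
      nlinarith
    exact Nat.le_of_mul_le_mul_right h3 (by omega)
  have hne : Nonempty (Σ v : Fin n, Fin ((nb F v).card / D + 1)) :=
    ⟨⟨⟨0, by omega⟩, ⟨0, Nat.succ_pos _⟩⟩⟩
  obtain ⟨e⟩ : Nonempty ((Σ v : Fin n, Fin ((nb F v).card / D + 1)) ↪ Fin N) :=
    Function.Embedding.nonempty_of_card_le (by rw [Fintype.card_fin]; omega)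
  refine ⟨(split F D).map e, ?_, ?_, ?_⟩
  · exact hP.pull _ _ _ (locInj_emb (split F D) e) (hP.pull _ _ _ (split_locInj F D) hPF)
  · have h1 : (vol F : ℝ) ≤ vol ((split F D).map e) := by
      exact_mod_cast (vol_split F D).trans (vol_emb _ e)
    refine le_trans ?_ h1
    rw [hvF]
    push_cast
    have h2 : c * (n : ℝ) ^ α ≤ k := Nat.le_ceil _
    have h3 : (N : ℝ) ^ α ≤ 64 * (n : ℝ) ^ α := by
      calc (N : ℝ) ^ α ≤ (8 * n) ^ α := by
            refine Real.rpow_le_rpow hN0.le ?_ (by linarith)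
            exact_mod_cast hn4
        _ = 8 ^ α * (n : ℝ) ^ α := Real.mul_rpow (by norm_num) (by positivity)
        _ ≤ 64 * (n : ℝ) ^ α := by
            refine mul_le_mul_of_nonneg_right ?_ (by positivity)
            calc (8 : ℝ) ^ α ≤ 8 ^ (2 : ℝ) :=
                  Real.rpow_le_rpow_of_exponent_le (by norm_num) hα2.le
              _ = 64 := by norm_num
    calc c / 32 * (N : ℝ) ^ α ≤ c / 32 * (64 * (n : ℝ) ^ α) :=
          mul_le_mul_of_nonneg_left h3 (by positivity)
      _ = 2 * (c * (n : ℝ) ^ α) := by ring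
      _ ≤ 2 * k := by linarith
  · intro x
    have h1 : ((nb ((split F D).map e) x).card : ℝ) ≤ D := by
      exact_mod_cast deg_emb _ e D (split_deg F hD1) x
    have h2 : (D : ℝ) < c * (n : ℝ) ^ (α - 1) + 1 := Nat.ceil_lt_add_one (by positivity)
    have h3 : (n : ℝ) ^ (α - 1) ≤ (N : ℝ) ^ (α - 1) :=
      Real.rpow_le_rpow hn0.le hNn (by linarith)
    have h4 : (1 : ℝ) ≤ (N : ℝ) ^ (α - 1) := by
      refine Real.one_le_rpow ?_ (by linarith)
      have : (2 : ℝ) ≤ n := by exact_mod_cast hn2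
      linarith
    have h5 := mul_le_mul_of_nonneg_left h3 hc.le
    calc ((nb ((split F D).map e) x).card : ℝ) ≤ c * (N : ℝ) ^ (α - 1) + (N : ℝ) ^ (α - 1) := by
          linarith
      _ = _ := by ring

end Pool.Agent.H46.EX
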