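import Mathlib
import Pool.Agent.H46.EX.Split

/-!
# Four equivalent statements about a class of graphs, for every regular function
-/

set_option autoImplicit false
set_option linter.all false

namespace Pool.Agent.H46.EX

open Finset Classical SimpleGraph Pool.Agent.H55

/-- `φ 1 > 0`, `φ n / n ^ δ` is nondecreasing, and `φ n ≤ L (n / m) φ m` for `m ≤ n`. -/
structure Reg (φ : ℕ → ℝ) (δ L : ℝ) : Prop where
  pos : 0 < φ 1
  one_le : 1 ≤ L
  lo : ∀ m n : ℕ, 1 ≤ m → m ≤ n → φ m / (m : ℝ) ^ δ ≤ φ n / (n : ℝ) ^ δ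
  up : ∀ m n : ℕ, 1 ≤ m → m ≤ n → φ n ≤ L * ((n : ℝ) / m * φ m)

namespace Reg

variable {φ : ℕ → ℝ} {δ L : ℝ}

lemma lower (h : Reg φ δ L) {n : ℕ} (hn : 1 ≤ n) : φ 1 * (n : ℝ) ^ δ ≤ φ n := by
  have h1 := h.lo 1 n le_rfl hn
  have h2 : (0 : ℝ) < (n : ℝ) ^ δ := by
    have : (0 : ℝ) < n := by exact_mod_cast hn
    positivity
  rw [Nat.cast_one, Real.one_rpow, div_one, le_div_iff₀ h2] at h1
  exact h1

lemma posn (h : Reg φ δ L) {n : ℕ} (hn : 1 ≤ n) : 0 < φ n := by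
  have h2 : (0 : ℝ) < (n : ℝ) ^ δ := by
    have : (0 : ℝ) < n := by exact_mod_cast hn
    positivity
  exact lt_of_lt_of_le (mul_pos h.pos h2) (h.lower hn)

lemma growth (h : Reg φ δ L) {m n : ℕ} (hm : 1 ≤ m) (hmn : m ≤ n) :
    φ m * ((n : ℝ) / m) ^ δ ≤ φ n := by
  have hm0 : (0 : ℝ) < m := by exact_mod_cast hm
  have hn0 : (0 : ℝ) < n := by exact_mod_cast (by omega : 0 < n)
  have h1 := h.lo m n hm hmn
  rw [div_le_div_iff₀ (by positivity) (by positivity)] at h1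
  rw [Real.div_rpow hn0.le hm0.le, ← mul_div_assoc, div_le_iff₀ (by positivity)]
  exact h1

lemma mono (h : Reg φ δ L) (hδ : 0 < δ) {m n : ℕ} (hm : 1 ≤ m) (hmn : m ≤ n) : φ m ≤ φ n := by
  have hm0 : (0 : ℝ) < m := by exact_mod_cast hm
  refine le_trans ?_ (h.growth hm hmn)
  have h1 : 1 ≤ ((n : ℝ) / m) ^ δ := by
    refine Real.one_le_rpow ?_ hδ.le
    rw [one_le_div hm0]
    exact_mod_cast hmn
  exact le_mul_of_one_le_right (h.posn hm).le h1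

lemma quot (h : Reg φ δ L) {m n : ℕ} (hm : 1 ≤ m) (hmn : m ≤ n) :
    (m : ℝ) / φ m ≤ L * (n / φ n) := by
  have hm0 : (0 : ℝ) < m := by exact_mod_cast hm
  have h1 := h.up m n hm hmn
  rw [← mul_div_assoc, div_le_div_iff₀ (h.posn hm) (h.posn (by omega))]
  calc (m : ℝ) * φ n ≤ m * (L * ((n : ℝ) / m * φ m)) := mul_le_mul_of_nonneg_left h1 hm0.le
    _ = _ := by field_simp

lemma ratio (h : Reg φ δ L) {n : ℕ} (hn : 1 ≤ n) : 1 / φ 1 ≤ L * (n / φ n) := by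
  have := h.quot (m := 1) (n := n) le_rfl hn
  simpa using this

/-- a nondecreasing function of the order `n / φ n` -/
lemma exists_psi (h : Reg φ δ L) : ∃ ψ : ℕ → ℝ, (∀ m n : ℕ, m ≤ n → ψ m ≤ ψ n) ∧
    ∀ n : ℕ, 1 ≤ n → (n : ℝ) / φ n ≤ ψ n ∧ ψ n ≤ L * (n / φ n) := by
  let ψ : ℕ → ℝ := fun n => Nat.rec (0 : ℝ) (fun k x => max x (((k + 1 : ℕ) : ℝ) / φ (k + 1))) n
  have h0 : ψ 0 = 0 := rfl
  have hs : ∀ k, ψ (k + 1) = max (ψ k) (((k + 1 : ℕ) : ℝ) / φ (k + 1)) := fun k => rfl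
  have hmono : Monotone ψ := monotone_nat_of_le_succ fun k => by
    rw [hs]; exact le_max_left _ _
  have hup : ∀ n j : ℕ, n ≤ j → 1 ≤ j → ψ n ≤ L * (j / φ j) := by
    intro n
    induction n with
    | zero =>
      intro j _ hj
      rw [h0]
      have := h.posn hj
      have := h.one_le
      positivity
    | succ n ih =>
      intro j hnj hj
      rw [hs]
      exact max_le (ih j (by omega) hj) (h.quot (by omega) hnj)
  refine ⟨ψ, fun m n hmn => hmono hmn, fun n hn => ⟨?_, hup n n le_rfl hn⟩⟩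
  obtain ⟨k, rfl⟩ : ∃ k, n = k + 1 := ⟨n - 1, by omega⟩
  rw [hs]
  exact le_max_right _ _

end Reg

/-- dense graphs with the property `P` -/
def DenseF (P : ∀ V : Type, SimpleGraph V → Prop) (φ : ℕ → ℝ) : Prop :=
  ∃ c : ℝ, 0 < c ∧ ∃ N : ℕ, ∀ n : ℕ, N ≤ n → ∃ G : SimpleGraph (Fin n), P (Fin n) G ∧
    c * ((n : ℝ) ^ 2 / φ n) ≤ (G.edgeSet.ncard : ℝ)

/-- decompositions of all graphs of bounded degree -/
def DecF (P : ∀ V : Type, SimpleGraph V → Prop) (φ : ℕ → ℝ) : Prop :=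
  ∃ C : ℝ, ∀ (V : Type) [Finite V] (H : SimpleGraph V) (d : ℕ), 1 ≤ d →
    (∀ x, (H.neighborSet x).ncard ≤ d) → ∃ M : ℕ, (M : ℝ) ≤ C * φ d ∧
      UnionOf (fun F : SimpleGraph V => P V F ∧
        ∀ x, ((F.neighborSet x).ncard : ℝ) ≤ C * (d / φ d)) H M

/-- relative Turán statement -/
def RelF (P : ∀ V : Type, SimpleGraph V → Prop) (φ : ℕ → ℝ) : Prop :=
  ∃ c : ℝ, 0 < c ∧ ∀ (V : Type) [Finite V] (H : SimpleGraph V) (d : ℕ), 1 ≤ d →
    (∀ x, (H.neighborSet x).ncard ≤ d) → ∃ F ≤ H, P V F ∧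
      c * ((H.edgeSet.ncard : ℝ) / φ d) ≤ (F.edgeSet.ncard : ℝ)

/-- Ramsey statement -/
def ColF (P : ∀ V : Type, SimpleGraph V → Prop) (φ : ℕ → ℝ) : Prop :=
  ∃ C : ℝ, ∀ n : ℕ, 1 ≤ n → ∃ q : ℕ, (q : ℝ) ≤ C * φ n ∧
    ∃ χ : Sym2 (Fin n) → Fin q, ∀ i, P (Fin n) (colourClass χ i)

/-- **Dense graphs with bounded degrees**. -/
theorem dense_bddF {P : ∀ V : Type, SimpleGraph V → Prop} (hP : LIClass P) {φ : ℕ → ℝ} {δ L : ℝ}
    (hφ : Reg φ δ L) (hδ : 0 < δ) (h : DenseF P φ) :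
    ∃ c l : ℝ, 0 < c ∧ 0 < l ∧ ∃ N₁ : ℕ, ∀ N : ℕ, N₁ ≤ N → ∃ G : SimpleGraph (Fin N),
      P (Fin N) G ∧ c * ((N : ℝ) ^ 2 / φ N) ≤ vol G ∧
        ∀ x, ((nb G x).card : ℝ) ≤ l * (N / φ N) := by
  obtain ⟨c, hc, N₀, hN₀⟩ := h
  have hL0 : 0 < L := lt_of_lt_of_le one_pos hφ.one_le
  refine ⟨c / 32, L * (c + φ 1), by positivity, mul_pos hL0 (add_pos hc hφ.pos), 4 * N₀ + 8,
    fun N hN => ?_⟩
  set n : ℕ := N / 4 with hn
  have hn1 : N₀ ≤ n := by omega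
  have hn2 : 2 ≤ n := by omega
  have hn3 : 4 * n ≤ N := by omega
  have hn4 : N ≤ 8 * n := by omega
  have hn0 : (0 : ℝ) < n := by exact_mod_cast (by omega : 0 < n)
  have hNn : (n : ℝ) ≤ N := by exact_mod_cast (by omega : n ≤ N)
  have hN0 : (0 : ℝ) < N := lt_of_lt_of_le hn0 hNn
  have hφn : 0 < φ n := hφ.posn (by omega)
  have hφN : 0 < φ N := hφ.posn (by omega)
  obtain ⟨G, hPG, hG⟩ := hN₀ n hn1
  set k : ℕ := ⌈c * ((n : ℝ) ^ 2 / φ n)⌉₊ with hk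
  have hkG : k ≤ G.edgeSet.ncard := Nat.ceil_le.mpr hG
  obtain ⟨F, hFG, hFk⟩ := exists_sub G k hkG
  have hPF : P (Fin n) F := hP.mono hFG hPG
  set D : ℕ := ⌈c * ((n : ℝ) / φ n)⌉₊ with hD
  have hD1 : 1 ≤ D := Nat.ceil_pos.mpr (by positivity)
  have hvF : vol F = 2 * k := by rw [vol_eq, hFk]
  -- the number of vertices
  have e1 : (n : ℝ) / φ n * n = (n : ℝ) ^ 2 / φ n := by ring
  have hkD : k ≤ D * n + 1 := by
    have h1 : (k : ℝ) < c * ((n : ℝ) ^ 2 / φ n) + 1 := Nat.ceil_lt_add_one (by positivity)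
    have h2 : c * ((n : ℝ) / φ n) ≤ D := Nat.le_ceil _
    have h3 : c * ((n : ℝ) ^ 2 / φ n) ≤ D * n := by
      rw [← e1, ← mul_assoc]
      exact mul_le_mul_of_nonneg_right h2 hn0.le
    have h4 : (k : ℝ) < ((D * n + 1 : ℕ) : ℝ) := by push_cast; linarith
    exact_mod_cast h4.le
  have hcard : Fintype.card (Σ v : Fin n, Fin ((nb F v).card / D + 1)) ≤ 4 * n := by
    have h1 := card_split F D
    rw [hvF, Fintype.card_fin] at h1
    have h2 : 2 ≤ D * n := by nlinarith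
    have h3 : Fintype.card (Σ v : Fin n, Fin ((nb F v).card / D + 1)) * D ≤ (4 * n) * D := by
      nlinarith
    exact Nat.le_of_mul_le_mul_right h3 (by omega)
  have hne : Nonempty (Σ v : Fin n, Fin ((nb F v).card / D + 1)) :=
    ⟨⟨⟨0, by omega⟩, ⟨0, Nat.succ_pos _⟩⟩⟩
  obtain ⟨e⟩ : Nonempty ((Σ v : Fin n, Fin ((nb F v).card / D + 1)) ↪ Fin N) :=
    Function.Embedding.nonempty_of_card_le (by rw [Fintype.card_fin]; omega)
  refine ⟨(split F D).map e, ?_, ?_, ?_⟩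
  · exact hP.pull _ _ _ (locInj_emb (split F D) e) (hP.pull _ _ _ (split_locInj F D) hPF)
  · have h1 : (vol F : ℝ) ≤ vol ((split F D).map e) := by
      exact_mod_cast (vol_split F D).trans (vol_emb _ e)
    refine le_trans ?_ h1
    rw [hvF]
    push_cast
    have h2 : c * ((n : ℝ) ^ 2 / φ n) ≤ k := Nat.le_ceil _
    have h3 : (N : ℝ) ^ 2 / φ N ≤ 64 * ((n : ℝ) ^ 2 / φ n) := by
      have h4 : (N : ℝ) ^ 2 ≤ 64 * (n : ℝ) ^ 2 := by
        have : (N : ℝ) ≤ 8 * n := by exact_mod_cast hn4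
        nlinarith
      have h5 : φ n ≤ φ N := hφ.mono hδ (by omega) (by omega)
      rw [← mul_div_assoc]
      exact div_le_div₀ (by positivity) h4 hφn h5
    calc c / 32 * ((N : ℝ) ^ 2 / φ N) ≤ c / 32 * (64 * ((n : ℝ) ^ 2 / φ n)) :=
          mul_le_mul_of_nonneg_left h3 (by positivity)
      _ = 2 * (c * ((n : ℝ) ^ 2 / φ n)) := by ring
      _ ≤ 2 * k := by linarith
  · intro x
    have h1 : ((nb ((split F D).map e) x).card : ℝ) ≤ D := by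
      exact_mod_cast deg_emb _ e D (split_deg F hD1) x
    have h2 : (D : ℝ) < c * ((n : ℝ) / φ n) + 1 := Nat.ceil_lt_add_one (by positivity)
    have h3 : (n : ℝ) / φ n ≤ L * (N / φ N) := hφ.quot (by omega) (by omega)
    have h4 : (1 : ℝ) ≤ φ 1 * (L * (N / φ N)) := by
      have := mul_le_mul_of_nonneg_left (hφ.ratio (n := N) (by omega)) hφ.pos.le
      rwa [mul_one_div_cancel hφ.pos.ne'] at this
    have h5 := mul_le_mul_of_nonneg_left h3 hc.le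
    calc ((nb ((split F D).map e) x).card : ℝ)
        ≤ c * (L * (N / φ N)) + φ 1 * (L * (N / φ N)) := by linarith
      _ = _ := by ring

end Pool.Agent.H46.EX
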