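import Mathlib
import Pool.Agent.H46.EX.Gauge

/-!
# Covering graphs of bounded degree by graphs from a class, for every regular function

`cover3F` follows the proof of `cover2` in `Pool.Agent.H55.CoverDeg`, with a regular function in the
place of a power and without an upper bound for the number of edges of the graphs of the class.
-/

set_option autoImplicit false
set_option linter.all false

namespace Pool.Agent.H46.EX

open Finset Classical Pool.Agent.H55

/-- **The covering theorem, with small degrees, for every regular function.** -/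
theorem cover3F {P : ∀ V : Type, SimpleGraph V → Prop} (hP : LIClass P) {φ : ℕ → ℝ} {δ L : ℝ}
    (hφ : Reg φ δ L) (hδ : 0 < δ) (hlow : DenseF P φ) :
    ∃ K : ℝ, 0 < K ∧ ∀ (V : Type) [Fintype V] (H : SimpleGraph V) (d : ℕ), 1 ≤ d →
      (∀ x, (nb H x).card ≤ d) → ∃ M : ℕ, (M : ℝ) ≤ K * φ d ∧
        Cov (PB P (K * (d / φ d))) H M := by
  obtain ⟨c', l, hc', hl, N₁, hprune⟩ := dense_bddF hP hφ hδ hlow
  obtain ⟨c, hcc, hc⟩ : ∃ c : ℝ, c / 2 = c' ∧ 0 < c := ⟨2 * c', by ring, by positivity⟩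
  rw [← hcc] at hprune
  have hφ1 : 0 < φ 1 := hφ.pos
  have hL1 : 1 ≤ L := hφ.one_le
  have hL0 : 0 < L := by linarith
  obtain ⟨ψ, hψmono, hψ⟩ := hφ.exists_psi
  -- the constant in the exponent
  set κ : ℝ := 1 / (2 * (16 * l / φ 1 + 1)) with hκ
  have hκ0 : 0 < κ := by positivity
  obtain ⟨m₀, hm₀⟩ := poly_exp κ δ hκ0 hδ
  set C2 : ℝ := 5 * L * (8 / c + 1 / φ 1) with hC2
  have hC20 : 0 < C2 := by positivity
  set d₀ : ℕ := 18 + 4 * m₀ + N₁ with hd₀
  have hr : (7 / 8 : ℝ) ^ δ < 1 := Real.rpow_lt_one (by norm_num) (by norm_num) hδ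
  set K : ℝ := max ((2 * d₀ + 1) / φ 1) (max (C2 / (1 - (7 / 8 : ℝ) ^ δ)) (max (5 * l) (φ 1 * L)))
    with hK
  have hK1 : C2 ≤ K * (1 - (7 / 8 : ℝ) ^ δ) := by
    rw [← div_le_iff₀ (by linarith)]
    exact le_trans (le_max_left _ _) (le_max_right _ _)
  have hK2 : (2 * d₀ + 1 : ℝ) / φ 1 ≤ K := le_max_left _ _
  have hK3 : 5 * l ≤ K :=
    le_trans (le_max_left _ _) (le_trans (le_max_right _ _) (le_max_right _ _))
  have hK4 : φ 1 * L ≤ K :=
    le_trans (le_max_right _ _) (le_trans (le_max_right _ _) (le_max_right _ _))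
  have hK0 : 0 < K := lt_of_lt_of_le (by positivity) hK4
  suffices hmain : ∀ (V : Type) [Fintype V] (H : SimpleGraph V) (d : ℕ), 1 ≤ d →
      (∀ x, (nb H x).card ≤ d) → ∃ M : ℕ, (M : ℝ) ≤ K * φ d ∧ Cov (PB P (K * ψ d)) H M by
    refine ⟨K * L, by positivity, fun V _ H d hd hH => ?_⟩
    obtain ⟨M, hM, hcov⟩ := hmain V H d hd hH
    have hφd : 0 < φ d := hφ.posn hd
    refine ⟨M, hM.trans ?_, hcov.imp' fun F hF => ⟨hF.1, fun x => (hF.2 x).trans ?_⟩⟩
    · refine mul_le_mul_of_nonneg_right ?_ hφd.le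
      exact le_mul_of_one_le_right hK0.le hL1
    · rw [mul_assoc]
      exact mul_le_mul_of_nonneg_left (hψ d hd).2 hK0.le
  intro V _ H d
  induction d using Nat.strong_induction_on generalizing H with
  | _ d ih =>
  intro hd hH
  have hd1 : (1 : ℝ) ≤ d := by exact_mod_cast hd
  have hφd : 0 < φ d := hφ.posn hd
  have hφ1d : φ 1 ≤ φ d := hφ.mono hδ le_rfl hd
  have hrat : 1 / φ 1 ≤ L * (d / φ d) := hφ.ratio hd
  have hψd : (d : ℝ) / φ d ≤ ψ d := (hψ d hd).1
  rcases lt_or_ge d d₀ with hlt | hge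
  · refine ⟨2 * d + 1, ?_, (cov_small (single_class hP) H d hH).imp' ?_⟩
    swap
    · intro F hF
      refine ⟨hF.1, fun x => ?_⟩
      have h5 : (F.neighborSet x).ncard ≤ 1 := by
        rw [Set.ncard_le_one_iff]
        intro y z hy hz
        exact hF.2 x y z hy hz
      have h6 : ((F.neighborSet x).ncard : ℝ) ≤ 1 := by exact_mod_cast h5
      have h7 : (1 : ℝ) ≤ K * ψ d := by
        calc (1 : ℝ) = φ 1 * (1 / φ 1) := (mul_one_div_cancel hφ1.ne').symm
          _ ≤ φ 1 * (L * (d / φ d)) := mul_le_mul_of_nonneg_left hrat hφ1.le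
          _ = φ 1 * L * (d / φ d) := by ring
          _ ≤ K * ψ d := mul_le_mul hK4 hψd (by positivity) hK0.le
      linarith
    have h2 : ((2 * d + 1 : ℕ) : ℝ) ≤ 2 * d₀ + 1 := by
      push_cast
      have : (d : ℝ) ≤ d₀ := by exact_mod_cast hlt.le
      linarith
    calc ((2 * d + 1 : ℕ) : ℝ) ≤ 2 * d₀ + 1 := h2
      _ = (2 * d₀ + 1) / φ 1 * φ 1 := by rw [div_mul_cancel₀ _ hφ1.ne']
      _ ≤ K * φ d := mul_le_mul hK2 hφ1d hφ1.le hK0.le
  · set m : ℕ := (d + 3) / 4 with hm
    have hm4 : d ≤ 4 * m := by omega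
    have hm3 : 4 * m ≤ d + 3 := by omega
    have hm5 : 8 * (3 * m) ≤ 7 * d := by omega
    have hmm : m₀ ≤ m := by omega
    have hmN₁ : N₁ ≤ 16 * m := by omega
    have hm1 : 1 ≤ m := by omega
    have hm1' : (1 : ℝ) ≤ m := by exact_mod_cast hm1
    have hcardF : Fintype.card (Fin (16 * m)) = 16 * m := Fintype.card_fin _
    obtain ⟨G, hPG, hGvol, hGdeg⟩ := hprune (16 * m) hmN₁
    set φN : ℝ := φ (16 * m) with hφNdef
    have hφN : 0 < φN := hφ.posn (by omega)
    have hφ1N : φ 1 ≤ φN := hφ.mono hδ le_rfl (by omega)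
    set N : ℝ := ((16 * m : ℕ) : ℝ) with hN
    have hNm : N = 16 * m := by rw [hN]; push_cast; ring
    have hN1 : 1 ≤ N := by rw [hNm]; linarith
    have hN0 : 0 < N := by linarith
    have hvol0 : 0 < (vol G : ℝ) := lt_of_lt_of_le (by positivity) hGvol
    have hNd : N ≤ 5 * d := by
      rw [hNm]
      have h5 : 16 * m ≤ 5 * d := by omega
      exact_mod_cast h5
    have hφNd : φN ≤ 5 * L * φ d := by
      have h1 : φN ≤ L * (N / d * φ d) := hφ.up d (16 * m) hd (by omega)
      have h2 : N / d ≤ 5 := by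
        rw [div_le_iff₀ (by linarith)]
        exact hNd
      calc φN ≤ L * (N / d * φ d) := h1
        _ ≤ L * (5 * φ d) :=
            mul_le_mul_of_nonneg_left (mul_le_mul_of_nonneg_right h2 hφd.le) hL0.le
        _ = _ := by ring
    -- the maximum degree
    set D : ℕ := ⌊l * (N / φN)⌋₊ with hD
    have hGD : ∀ a, (nb G a).card ≤ D := fun a => Nat.le_floor (hGdeg a)
    have hD1 : 1 ≤ D := by
      by_contra hcon
      have hD0 : D = 0 := by omega
      have : vol G = 0 := by
        rw [vol]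
        refine Finset.sum_eq_zero fun a _ => ?_
        have := hGD a
        omega
      rw [this] at hvol0
      simp at hvol0
    have hDle : (D : ℝ) ≤ l * (N / φN) := Nat.floor_le (by positivity)
    -- the number of maps
    set M : ℕ := ⌈4 * N ^ 2 / (vol G : ℝ)⌉₊ with hM
    have hM1 : 4 * N ^ 2 ≤ M * (vol G : ℝ) := by
      rw [← div_le_iff₀ hvol0]
      exact Nat.le_ceil _
    have hM2 : (M : ℝ) ≤ C2 * φ d := by
      have h1 : (M : ℝ) < 4 * N ^ 2 / (vol G : ℝ) + 1 := Nat.ceil_lt_add_one (by positivity)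
      have h2 : 4 * N ^ 2 / (vol G : ℝ) ≤ 8 / c * φN := by
        rw [div_le_iff₀ hvol0]
        calc 4 * N ^ 2 = 8 / c * φN * (c / 2 * (N ^ 2 / φN)) := by
              field_simp
              ring
          _ ≤ 8 / c * φN * vol G := mul_le_mul_of_nonneg_left hGvol (by positivity)
      have h7 : (1 : ℝ) ≤ 1 / φ 1 * φN := by
        rw [one_div, inv_mul_eq_div, one_le_div hφ1]
        exact hφ1N
      calc (M : ℝ) ≤ 8 / c * φN + 1 / φ 1 * φN := by linarith
        _ = (8 / c + 1 / φ 1) * φN := by ring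
        _ ≤ (8 / c + 1 / φ 1) * (5 * L * φ d) := mul_le_mul_of_nonneg_left hφNd (by positivity)
        _ = C2 * φ d := by rw [hC2]; ring
    -- the condition of the local lemma
    have hcond : 8 * ((4 * m + 1 : ℕ) : ℝ) ^ 4 ≤ (1 + 1 / (D : ℝ)) ^ m := by
      refine (hm₀ m hmm).trans (pow_lower D m hD1 _ ?_)
      have h0 : φ 1 * (m : ℝ) ^ δ ≤ φN := by
        refine le_trans ?_ (hφ.lower (n := 16 * m) (by omega))
        refine mul_le_mul_of_nonneg_left (Real.rpow_le_rpow (by positivity) ?_ hδ.le) hφ1.le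
        exact_mod_cast (by omega : m ≤ 16 * m)
      have hmδ : (0 : ℝ) < (m : ℝ) ^ δ := by positivity
      have h1 : (m : ℝ) ^ δ * D ≤ 16 * l / φ 1 * m := by
        calc (m : ℝ) ^ δ * D ≤ (m : ℝ) ^ δ * (l * (N / φN)) :=
              mul_le_mul_of_nonneg_left hDle hmδ.le
          _ ≤ (m : ℝ) ^ δ * (l * (N / (φ 1 * (m : ℝ) ^ δ))) := by
              refine mul_le_mul_of_nonneg_left (mul_le_mul_of_nonneg_left ?_ hl.le) hmδ.le
              exact div_le_div_of_nonneg_left hN0.le (by positivity) h0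
          _ = 16 * l / φ 1 * m := by
              rw [hNm]
              field_simp
      have h3 : 0 < 16 * l / φ 1 := by positivity
      calc κ * (m : ℝ) ^ δ * D = κ * ((m : ℝ) ^ δ * D) := by ring
        _ ≤ κ * (16 * l / φ 1 * m) := mul_le_mul_of_nonneg_left h1 hκ0.le
        _ = κ * (16 * l / φ 1) * m := by ring
        _ ≤ 1 / 2 * m := by
            refine mul_le_mul_of_nonneg_right ?_ (by linarith)
            rw [hκ, div_mul_eq_mul_div, one_mul, div_le_div_iff₀ (by positivity) (by norm_num)]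
            linarith
        _ = m / 2 := by ring
    obtain ⟨f, hf⟩ := stage (W := Fin (16 * m)) H G m (fun x => (hH x).trans hm4)
      (by rw [hcardF]) (by rw [hcardF]; omega) D hD1 hGD M (by rw [hcardF]; exact hM1) hcond
    -- the rest
    obtain ⟨M', hM', hcov⟩ := ih (3 * m) (by omega)
      (leftover H (fun i => Pool.Agent.H55.pull H G (f i))) (by omega) (fun x => by
        refine le_trans (Finset.card_le_card ?_) (hf x)
        intro y hy
        have := mem_nb.mp hy
        rw [rest, Finset.mem_filter, mem_nb]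
        exact this)
    have hDd : (D : ℝ) ≤ K * ψ d := by
      have h1 : φ d ≤ φN := hφ.mono hδ hd (by omega)
      calc (D : ℝ) ≤ l * (N / φN) := hDle
        _ ≤ l * (5 * d / φ d) := by
            refine mul_le_mul_of_nonneg_left ?_ hl.le
            exact div_le_div₀ (by positivity) hNd hφd h1
        _ = 5 * l * (d / φ d) := by ring
        _ ≤ K * ψ d := mul_le_mul hK3 hψd (by positivity) hK0.le
    refine ⟨M + M', ?_, Cov.add (fun i => Pool.Agent.H55.pull H G (f i)) (fun i =>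
      ⟨pull_le H G (f i), hP.pull _ G (f i) (pull_locInj H G (f i)) hPG, fun x => ?_⟩)
        (hcov.imp' fun F hF => ⟨hF.1, fun x => (hF.2 x).trans ?_⟩)⟩
    rotate_left
    · refine le_trans ?_ hDd
      have h9 := pull_deg H G D hGD (f i) x univ
      have h10 : ((Pool.Agent.H55.pull H G (f i)).neighborSet x).ncard ≤ D := by
        rw [← Set.ncard_coe_finset] at h9
        convert h9 using 2
        ext y
        simp
      exact_mod_cast h10
    · exact mul_le_mul_of_nonneg_left (hψmono (3 * m) d (by omega)) hK0.le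
    have h1 : φ (3 * m) ≤ (7 / 8 : ℝ) ^ δ * φ d := by
      have h2 := hφ.growth (m := 3 * m) (n := d) (by omega) (by omega)
      have h3m : (0 : ℝ) < ((3 * m : ℕ) : ℝ) := by exact_mod_cast (by omega : 0 < 3 * m)
      have h3 : (8 / 7 : ℝ) ^ δ ≤ ((d : ℝ) / ((3 * m : ℕ) : ℝ)) ^ δ := by
        refine Real.rpow_le_rpow (by norm_num) ?_ hδ.le
        rw [div_le_div_iff₀ (by norm_num) h3m]
        have : (8 : ℝ) * ((3 * m : ℕ) : ℝ) ≤ 7 * d := by exact_mod_cast hm5
        linarith
      have h4 : (7 / 8 : ℝ) ^ δ * (8 / 7 : ℝ) ^ δ = 1 := by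
        rw [← Real.mul_rpow (by norm_num) (by norm_num)]
        norm_num
      have h5 : φ (3 * m) * (8 / 7 : ℝ) ^ δ ≤ φ d :=
        (mul_le_mul_of_nonneg_left h3 (hφ.posn (by omega)).le).trans h2
      calc φ (3 * m) = (7 / 8 : ℝ) ^ δ * (φ (3 * m) * (8 / 7 : ℝ) ^ δ) := by
            rw [mul_comm (φ (3 * m)), ← mul_assoc, h4, one_mul]
        _ ≤ _ := mul_le_mul_of_nonneg_left h5 (by positivity)
    push_cast
    calc (M : ℝ) + M' ≤ C2 * φ d + K * φ (3 * m) := add_le_add hM2 hM'
      _ ≤ C2 * φ d + K * ((7 / 8 : ℝ) ^ δ * φ d) := by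
          have := mul_le_mul_of_nonneg_left h1 hK0.le
          linarith
      _ ≤ K * (1 - (7 / 8 : ℝ) ^ δ) * φ d + K * ((7 / 8 : ℝ) ^ δ * φ d) := by
          have := mul_le_mul_of_nonneg_right hK1 hφd.le
          linarith
      _ = K * φ d := by ring

end Pool.Agent.H46.EX
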