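import Mathlib
import Pool.Agent.H46.EX.CoverF

/-!
# Four equivalent statements about a class of graphs closed under locally injective
# homomorphisms, for every regular function
-/

set_option autoImplicit false
set_option linter.all false

namespace Pool.Agent.H46.EX

open Finset Classical SimpleGraph Pool.Agent.H55

lemma dense_decF {P : ∀ V : Type, SimpleGraph V → Prop} (hP : LIClass P) {φ : ℕ → ℝ} {δ L : ℝ}
    (hφ : Reg φ δ L) (hδ : 0 < δ) (h : DenseF P φ) : DecF P φ := by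
  obtain ⟨K, hK, hcov⟩ := cover3F hP hφ hδ h
  refine ⟨K, fun V _ H d hd hH => ?_⟩
  haveI : Fintype V := Fintype.ofFinite V
  obtain ⟨M, hM, hM'⟩ := hcov V H d hd (fun x => by rw [nb_card]; exact hH x)
  exact ⟨M, hM, cov_unionOf hM'⟩

lemma dec_relF {P : ∀ V : Type, SimpleGraph V → Prop}
    (hbot : ∀ (V : Type) [Finite V], P V ⊥) {φ : ℕ → ℝ} (hpos : ∀ n : ℕ, 1 ≤ n → 0 < φ n)
    (h : DecF P φ) : RelF P φ := by
  obtain ⟨C, hC⟩ := h
  set C' : ℝ := max C 1 with hC'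
  have hC'0 : 0 < C' := lt_of_lt_of_le one_pos (le_max_right _ _)
  refine ⟨C'⁻¹, by positivity, fun V _ H d hd hH => ?_⟩
  have hφd : 0 < φ d := hpos d hd
  obtain ⟨M, hM, F, hF, hc⟩ := hC V H d hd hH
  have hsub : H.edgeSet ⊆ ⋃ i, (F i).edgeSet := by
    intro e he
    induction e using Sym2.ind with
    | _ x y =>
      rw [SimpleGraph.mem_edgeSet, hc, SimpleGraph.iSup_adj] at he
      obtain ⟨i, hi⟩ := he
      exact Set.mem_iUnion.mpr ⟨i, hi⟩
  have hsum : H.edgeSet.ncard ≤ ∑ i, (F i).edgeSet.ncard := by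
    refine (Set.ncard_le_ncard hsub (Set.toFinite _)).trans ?_
    have : ∀ s : Finset (Fin M), (⋃ i ∈ s, (F i).edgeSet).ncard ≤ ∑ i ∈ s, (F i).edgeSet.ncard := by
      intro s
      induction s using Finset.induction_on with
      | empty => simp
      | insert a s ha ih =>
        rw [Finset.sum_insert ha, Finset.set_biUnion_insert]
        exact (Set.ncard_union_le _ _).trans (Nat.add_le_add_left ih _)
    simpa using this univ
  rcases Nat.eq_zero_or_pos M with hM0 | hM0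
  · subst hM0
    refine ⟨⊥, bot_le, hbot V, ?_⟩
    have : H.edgeSet.ncard = 0 := by
      have := hsum
      simp at this
      simpa using this
    rw [this]
    simp
  · obtain ⟨i, hi⟩ : ∃ i, (H.edgeSet.ncard : ℝ) / M ≤ ((F i).edgeSet.ncard : ℝ) := by
      by_contra hcon
      push Not at hcon
      have h3 := Finset.sum_lt_sum_of_nonempty (s := (univ : Finset (Fin M)))
        ⟨⟨0, hM0⟩, Finset.mem_univ _⟩ (fun i _ => hcon i)
      rw [Finset.sum_const, Finset.card_univ, Fintype.card_fin, nsmul_eq_mul,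
        mul_div_cancel₀ _ (by positivity)] at h3
      have : (H.edgeSet.ncard : ℝ) ≤ ∑ i, ((F i).edgeSet.ncard : ℝ) := by exact_mod_cast hsum
      linarith
    refine ⟨F i, (hF i).1, (hF i).2.1, le_trans ?_ hi⟩
    have hM0' : (0 : ℝ) < M := by exact_mod_cast hM0
    have hM2 : (M : ℝ) ≤ C' * φ d :=
      hM.trans (mul_le_mul_of_nonneg_right (le_max_left _ _) hφd.le)
    calc C'⁻¹ * ((H.edgeSet.ncard : ℝ) / φ d) = (H.edgeSet.ncard : ℝ) / (C' * φ d) := by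
          field_simp
      _ ≤ _ := div_le_div_of_nonneg_left (by positivity) hM0' hM2

lemma rel_denseF {P : ∀ V : Type, SimpleGraph V → Prop} {φ : ℕ → ℝ}
    (hpos : ∀ n : ℕ, 1 ≤ n → 0 < φ n) (h : RelF P φ) : DenseF P φ := by
  obtain ⟨c, hc, h⟩ := h
  refine ⟨c / 4, by positivity, 2, fun n hn => ?_⟩
  have hn2 : (2 : ℝ) ≤ n := by exact_mod_cast hn
  have hφn : 0 < φ n := hpos n (by omega)
  obtain ⟨F, _, hF, hd⟩ := h (Fin n) ⊤ n (by omega) (fun x => by
      refine (Set.ncard_le_card _).trans ?_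
      rw [Nat.card_eq_fintype_card, Fintype.card_fin])
  refine ⟨F, hF, le_trans ?_ hd⟩
  have h1 := vol_eq (⊤ : SimpleGraph (Fin n))
  rw [vol_top] at h1
  have h2 : (n : ℝ) * (n - 1) = 2 * ((⊤ : SimpleGraph (Fin n)).edgeSet.ncard : ℝ) := by
    have : ((n * (n - 1) : ℕ) : ℝ) = 2 * ((⊤ : SimpleGraph (Fin n)).edgeSet.ncard : ℝ) := by
      exact_mod_cast h1
    rw [Nat.cast_mul, Nat.cast_sub (by omega)] at this
    simpa using this
  have h3 : (n : ℝ) ^ 2 / 4 ≤ ((⊤ : SimpleGraph (Fin n)).edgeSet.ncard : ℝ) := by nlinarith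
  calc c / 4 * ((n : ℝ) ^ 2 / φ n) = c * ((n : ℝ) ^ 2 / 4 / φ n) := by ring
    _ ≤ _ := mul_le_mul_of_nonneg_left (div_le_div_of_nonneg_right h3 hφn.le) hc.le

lemma dec_colF {P : ∀ V : Type, SimpleGraph V → Prop}
    (hmono : ∀ (V : Type) [Finite V] (F G : SimpleGraph V), F ≤ G → P V G → P V F)
    (hbot : ∀ (V : Type) [Finite V], P V ⊥) {φ : ℕ → ℝ} {a : ℝ} (ha : 0 < a)
    (hpos : ∀ n : ℕ, 1 ≤ n → a ≤ φ n) (h : DecF P φ) : ColF P φ := by
  obtain ⟨C, hC⟩ := h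
  refine ⟨C + 1 / a, fun n hn => ?_⟩
  have hφn : 0 < φ n := lt_of_lt_of_le ha (hpos n hn)
  obtain ⟨M, hM, F, hF, hc⟩ := hC (Fin n) ⊤ n hn (fun x => by
      refine (Set.ncard_le_card _).trans ?_
      rw [Nat.card_eq_fintype_card, Fintype.card_fin])
  refine ⟨M + 1, ?_, ?_⟩
  · have h1 : 1 ≤ 1 / a * φ n := by
      rw [one_div, inv_mul_eq_div, one_le_div ha]
      exact hpos n hn
    push_cast
    rw [add_mul]
    linarith
  have hex : ∀ e : Sym2 (Fin n), ∃ i : Fin (M + 1), ¬ e.IsDiag →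
      ∃ j : Fin M, i = Fin.castSucc j ∧ e ∈ (F j).edgeSet := by
    intro e
    by_cases he : e.IsDiag
    · exact ⟨⟨0, Nat.succ_pos _⟩, fun h => absurd he h⟩
    · induction e using Sym2.ind with
      | _ x y =>
        have hxy : (⊤ : SimpleGraph (Fin n)).Adj x y := by
          rw [SimpleGraph.top_adj]
          exact he
        rw [hc, SimpleGraph.iSup_adj] at hxy
        obtain ⟨j, hj⟩ := hxy
        exact ⟨Fin.castSucc j, fun _ => ⟨j, rfl, hj⟩⟩
  choose χ hχ using hex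
  refine ⟨χ, fun i => ?_⟩
  by_cases hi : i.val < M
  · refine hmono _ _ (F ⟨i.val, hi⟩) (fun x y h => ?_) (hF _).2.1
    obtain ⟨hxy, hχi⟩ := h
    obtain ⟨j, hj, hj'⟩ := hχ s(x, y) (by simpa using hxy)
    rw [hχi] at hj
    have : j = ⟨i.val, hi⟩ := by
      refine Fin.ext ?_
      have := congrArg Fin.val hj
      simpa using this.symm
    rw [← this]
    exact hj'
  · refine hmono _ _ ⊥ (fun x y h => ?_) (hbot _)
    obtain ⟨hxy, hχi⟩ := h
    obtain ⟨j, hj, hj'⟩ := hχ s(x, y) (by simpa using hxy)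
    rw [hχi] at hj
    exact absurd (by rw [hj]; exact j.2) hi

lemma col_denseF {P : ∀ V : Type, SimpleGraph V → Prop} {φ : ℕ → ℝ}
    (hpos : ∀ n : ℕ, 1 ≤ n → 0 < φ n) (h : ColF P φ) : DenseF P φ := by
  obtain ⟨C, h⟩ := h
  set C' : ℝ := max C 1 with hC'
  have hC'0 : 0 < C' := lt_of_lt_of_le one_pos (le_max_right _ _)
  refine ⟨1 / (4 * C'), by positivity, 2, fun n hn => ?_⟩
  have hn2 : (2 : ℝ) ≤ n := by exact_mod_cast hn
  have hφn : 0 < φ n := hpos n (by omega)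
  obtain ⟨q, hq, χ, hχ⟩ := h n (by omega)
  have hqn : 0 < q := by
    rcases Nat.eq_zero_or_pos q with h0 | h0
    · subst h0
      exact (χ s(⟨0, by omega⟩, ⟨0, by omega⟩)).elim0
    · exact h0
  have hq0 : (0 : ℝ) < q := by exact_mod_cast hqn
  have hq2 : (q : ℝ) ≤ C' * φ n := hq.trans (mul_le_mul_of_nonneg_right (le_max_left _ _) hφn.le)
  -- pigeonhole
  have hpig : ∃ i, (vol (⊤ : SimpleGraph (Fin n)) : ℝ) / q ≤ vol (colourClass χ i) := by
    by_contra hcon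
    push Not at hcon
    have h3 := Finset.sum_lt_sum_of_nonempty (s := (univ : Finset (Fin q)))
      ⟨⟨0, hqn⟩, Finset.mem_univ _⟩ (fun i _ => hcon i)
    rw [sum_classes, Finset.sum_const, Finset.card_univ, Fintype.card_fin, nsmul_eq_mul] at h3
    rw [mul_div_cancel₀ _ hq0.ne'] at h3
    exact lt_irrefl _ h3
  obtain ⟨i, hi⟩ := hpig
  refine ⟨colourClass χ i, hχ i, ?_⟩
  rw [vol_top] at hi
  rw [vol_eq] at hi
  push_cast at hi
  have h5 : (n : ℝ) ^ 2 / 2 ≤ n * ((n - 1 : ℕ) : ℝ) := by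
    rw [Nat.cast_sub (by omega)]
    push_cast
    nlinarith
  have h6 : (n : ℝ) ^ 2 / 2 / (C' * φ n) ≤ 2 * ((colourClass χ i).edgeSet.ncard : ℝ) := by
    refine le_trans ?_ hi
    exact div_le_div₀ (by positivity) h5 hq0 hq2
  have h8 : (n : ℝ) ^ 2 / 2 / (C' * φ n) = 2 * (1 / (4 * C') * ((n : ℝ) ^ 2 / φ n)) := by
    field_simp
    ring
  linarith

/-! ### Regularisation -/

/-- the running maximum of a function -/
lemma exists_env (a : ℕ → ℝ) : ∃ μ : ℕ → ℝ, (∀ m n : ℕ, m ≤ n → μ m ≤ μ n) ∧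
    (∀ n : ℕ, 1 ≤ n → a n ≤ μ n) ∧ ∀ n : ℕ, 1 ≤ n → ∃ k, 1 ≤ k ∧ k ≤ n ∧ μ n = a k := by
  let μ : ℕ → ℝ := fun n => Nat.rec (a 1) (fun k x => max x (a (k + 1))) n
  have h0 : μ 0 = a 1 := rfl
  have hs : ∀ k, μ (k + 1) = max (μ k) (a (k + 1)) := fun k => rfl
  have hmono : Monotone μ := monotone_nat_of_le_succ fun k => by
    rw [hs]; exact le_max_left _ _
  have hat : ∀ n : ℕ, ∃ k, 1 ≤ k ∧ k ≤ n + 1 ∧ μ (n + 1) = a k := by
    intro n
    induction n with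
    | zero =>
      refine ⟨1, le_rfl, le_rfl, ?_⟩
      rw [hs, h0]
      exact max_self _
    | succ n ih =>
      obtain ⟨k, hk1, hk2, hk⟩ := ih
      rw [hs (n + 1)]
      rcases max_choice (μ (n + 1)) (a (n + 1 + 1)) with h | h
      · exact ⟨k, hk1, by omega, by rw [h, hk]⟩
      · exact ⟨n + 1 + 1, by omega, le_rfl, h⟩
  refine ⟨μ, fun m n hmn => hmono hmn, fun n hn => ?_, fun n hn => ?_⟩
  · obtain ⟨k, rfl⟩ : ∃ k, n = k + 1 := ⟨n - 1, by omega⟩
    rw [hs]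
    exact le_max_right _ _
  · obtain ⟨k, rfl⟩ : ∃ k, n = k + 1 := ⟨n - 1, by omega⟩
    exact hat k

/-- The function `max_{k ≤ n} (n / k) ^ δ g k` is regular. -/
lemma env_reg {g : ℕ → ℝ} {δ L : ℝ} (hδ : 0 < δ) (hδ1 : δ ≤ 1) (hL : 1 ≤ L)
    (hpos : ∀ n : ℕ, 1 ≤ n → 0 < g n)
    (hup : ∀ m n : ℕ, 1 ≤ m → m ≤ n → g n ≤ L * ((n : ℝ) / m * g m)) :
    ∃ φ : ℕ → ℝ, Reg φ δ L ∧ (∀ n : ℕ, 1 ≤ n → g n ≤ φ n) ∧
      ∀ n : ℕ, 1 ≤ n → ∃ k, 1 ≤ k ∧ k ≤ n ∧ φ n = ((n : ℝ) / k) ^ δ * g k := by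
  obtain ⟨μ, hμ1, hμ2, hμ3⟩ := exists_env (fun n => g n / (n : ℝ) ^ δ)
  have hpw : ∀ n : ℕ, 1 ≤ n → (0 : ℝ) < (n : ℝ) ^ δ := fun n hn => by
    have : (0 : ℝ) < n := by exact_mod_cast hn
    positivity
  have hge : ∀ n : ℕ, 1 ≤ n → g n ≤ (n : ℝ) ^ δ * μ n := fun n hn => by
    have h1 := hμ2 n hn
    rw [div_le_iff₀ (hpw n hn)] at h1
    linarith
  have hat : ∀ n : ℕ, 1 ≤ n → ∃ k, 1 ≤ k ∧ k ≤ n ∧
      (n : ℝ) ^ δ * μ n = ((n : ℝ) / k) ^ δ * g k := fun n hn => by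
    obtain ⟨k, hk1, hk2, hk⟩ := hμ3 n hn
    refine ⟨k, hk1, hk2, ?_⟩
    rw [hk, Real.div_rpow (by positivity) (by positivity)]
    ring
  refine ⟨fun n => (n : ℝ) ^ δ * μ n, ⟨?_, hL, fun m n hm hmn => ?_, fun m n hm hmn => ?_⟩, hge, hat⟩
  · exact lt_of_lt_of_le (hpos 1 le_rfl) (hge 1 le_rfl)
  · rw [mul_div_cancel_left₀ _ (hpw m hm).ne', mul_div_cancel_left₀ _ (hpw n (by omega)).ne']
    exact hμ1 m n hmn
  · have hm0 : (0 : ℝ) < m := by exact_mod_cast hm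
    have hn0 : (0 : ℝ) < n := by exact_mod_cast (by omega : 0 < n)
    have hmn' : (m : ℝ) ≤ n := by exact_mod_cast hmn
    have hμm : 0 < μ m := by
      have h1 := lt_of_lt_of_le (hpos m hm) (hge m hm)
      exact pos_of_mul_pos_right h1 (hpw m hm).le
    obtain ⟨k, hk1, hk2, hk⟩ := hμ3 n (by omega)
    have hk0 : (0 : ℝ) < k := by exact_mod_cast hk1
    rcases le_or_gt k m with hkm | hkm
    · have h1 : μ n ≤ μ m := by
        rw [hk]
        exact (hμ2 k hk1).trans (hμ1 k m hkm)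
      have h2 : (n : ℝ) ^ δ ≤ n / m * (m : ℝ) ^ δ := by
        have h3 : ((n : ℝ) / m) ^ δ ≤ n / m := by
          calc ((n : ℝ) / m) ^ δ ≤ (n / m) ^ (1 : ℝ) := by
                refine Real.rpow_le_rpow_of_exponent_le ?_ hδ1
                rw [one_le_div hm0]
                exact hmn'
            _ = n / m := Real.rpow_one _
        rw [Real.div_rpow hn0.le hm0.le, div_le_iff₀ (hpw m hm)] at h3
        exact h3
      have h4 : 0 ≤ (n : ℝ) / m * ((m : ℝ) ^ δ * μ m) := by positivity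
      calc (n : ℝ) ^ δ * μ n ≤ (n : ℝ) ^ δ * μ m := mul_le_mul_of_nonneg_left h1 (by positivity)
        _ ≤ n / m * (m : ℝ) ^ δ * μ m := mul_le_mul_of_nonneg_right h2 hμm.le
        _ = n / m * ((m : ℝ) ^ δ * μ m) := by ring
        _ ≤ L * (n / m * ((m : ℝ) ^ δ * μ m)) := le_mul_of_one_le_left h4 hL
    · have h1 : (n : ℝ) ^ δ * μ n = ((n : ℝ) / k) ^ δ * g k := by
        rw [hk, Real.div_rpow (by positivity) (by positivity)]
        ring
      have h2 : ((n : ℝ) / k) ^ δ ≤ n / k := by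
        calc ((n : ℝ) / k) ^ δ ≤ (n / k) ^ (1 : ℝ) := by
              refine Real.rpow_le_rpow_of_exponent_le ?_ hδ1
              rw [one_le_div hk0]
              exact_mod_cast hk2
          _ = n / k := Real.rpow_one _
      have h3 := hup m k hm hkm.le
      show (n : ℝ) ^ δ * μ n ≤ L * ((n : ℝ) / m * ((m : ℝ) ^ δ * μ m))
      rw [h1]
      calc ((n : ℝ) / k) ^ δ * g k ≤ n / k * g k := mul_le_mul_of_nonneg_right h2 (hpos k hk1).le
        _ ≤ n / k * (L * ((k : ℝ) / m * g m)) := mul_le_mul_of_nonneg_left h3 (by positivity)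
        _ = L * (n / m * g m) := by field_simp
        _ ≤ L * ((n : ℝ) / m * ((m : ℝ) ^ δ * μ m)) := by
            refine mul_le_mul_of_nonneg_left ?_ (by linarith)
            exact mul_le_mul_of_nonneg_left (hge m hm) (by positivity)

/-- `φ` is positive and `(n / m) ^ δ / L ≤ φ n / φ m ≤ L n / m` for `m ≤ n`. -/
structure WReg (φ : ℕ → ℝ) (δ L : ℝ) : Prop where
  pos : ∀ n : ℕ, 1 ≤ n → 0 < φ n
  lo : ∀ m n : ℕ, 1 ≤ m → m ≤ n → ((n : ℝ) / m) ^ δ * φ m ≤ L * φ n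
  up : ∀ m n : ℕ, 1 ≤ m → m ≤ n → φ n ≤ L * ((n : ℝ) / m * φ m)

lemma WReg.one_le {φ : ℕ → ℝ} {δ L : ℝ} (h : WReg φ δ L) : 1 ≤ L := by
  have h1 := h.up 1 1 le_rfl le_rfl
  have h2 := h.pos 1 le_rfl
  rw [Nat.cast_one, div_one, one_mul] at h1
  by_contra hcon
  push Not at hcon
  nlinarith

/-- **The four statements are equivalent, for every regular function.** -/
theorem four_equivF {P : ∀ V : Type, SimpleGraph V → Prop} (hP : LIClass P) {φ : ℕ → ℝ} {δ L : ℝ}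
    (hφ : WReg φ δ L) (hδ : 0 < δ) :
    (DenseF P φ ↔ DecF P φ) ∧ (DenseF P φ ↔ RelF P φ) ∧ (DenseF P φ ↔ ColF P φ) := by
  have hL := hφ.one_le
  have hL0 : 0 < L := by linarith
  have hbot : ∀ (V : Type) [Finite V], P V ⊥ := fun V _ => hP.single ⊥ (by simp)
  obtain ⟨Φ, hΦ, hge, hat⟩ := env_reg (g := φ) (δ := min δ 1) (lt_min hδ one_pos)
    (min_le_right _ _) hL hφ.pos hφ.up
  have hle : ∀ n : ℕ, 1 ≤ n → Φ n ≤ L * φ n := by
    intro n hn
    obtain ⟨k, hk1, hk2, hk⟩ := hat n hn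
    have hk0 : (0 : ℝ) < k := by exact_mod_cast hk1
    rw [hk]
    refine le_trans (mul_le_mul_of_nonneg_right ?_ (hφ.pos k hk1).le) (hφ.lo k n hk1 hk2)
    refine Real.rpow_le_rpow_of_exponent_le ?_ (min_le_left _ _)
    rw [one_le_div hk0]
    exact_mod_cast hk2
  have h1 : DenseF P φ → DecF P φ := by
    intro h
    have hD : DenseF P Φ := by
      obtain ⟨c, hc, N, hN⟩ := h
      refine ⟨c, hc, N + 1, fun n hn => ?_⟩
      obtain ⟨G, hG, he⟩ := hN n (by omega)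
      refine ⟨G, hG, le_trans (mul_le_mul_of_nonneg_left ?_ hc.le) he⟩
      exact div_le_div_of_nonneg_left (by positivity) (hφ.pos n (by omega)) (hge n (by omega))
    obtain ⟨C, hC⟩ := dense_decF hP hΦ (lt_min hδ one_pos) hD
    refine ⟨max C 1 * L, fun V _ H d hd hH => ?_⟩
    obtain ⟨M, hM, F, hF, hc⟩ := hC V H d hd hH
    have hφd := hφ.pos d hd
    have hΦd : 0 < Φ d := lt_of_lt_of_le hφd (hge d hd)
    have hC1 : C ≤ max C 1 := le_max_left _ _
    have hC0 : 0 < max C 1 := lt_of_lt_of_le one_pos (le_max_right _ _)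
    refine ⟨M, ?_, F, fun i => ⟨(hF i).1, (hF i).2.1, fun x => ((hF i).2.2 x).trans ?_⟩, hc⟩
    · calc (M : ℝ) ≤ C * Φ d := hM
        _ ≤ max C 1 * Φ d := mul_le_mul_of_nonneg_right hC1 hΦd.le
        _ ≤ max C 1 * (L * φ d) := mul_le_mul_of_nonneg_left (hle d hd) hC0.le
        _ = _ := by ring
    · have hd0 : (0 : ℝ) ≤ d := by positivity
      calc C * ((d : ℝ) / Φ d) ≤ max C 1 * (d / Φ d) :=
            mul_le_mul_of_nonneg_right hC1 (by positivity)
        _ ≤ max C 1 * (d / φ d) := mul_le_mul_of_nonneg_left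
            (div_le_div_of_nonneg_left hd0 hφd (hge d hd)) hC0.le
        _ ≤ max C 1 * L * (d / φ d) := by
            refine mul_le_mul_of_nonneg_right ?_ (by positivity)
            exact le_mul_of_one_le_right hC0.le hL
  have h2 : DecF P φ → RelF P φ := dec_relF hbot hφ.pos
  have h3 : RelF P φ → DenseF P φ := rel_denseF hφ.pos
  have hφ1 := hφ.pos 1 le_rfl
  have h4 : DecF P φ → ColF P φ := by
    refine dec_colF (fun V _ F G hle hG => hP.mono hle hG) hbot (a := φ 1 / L) (by positivity) ?_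
    intro n hn
    have hn1 : (1 : ℝ) ≤ n := by exact_mod_cast hn
    rw [div_le_iff₀ hL0, mul_comm]
    refine le_trans ?_ (hφ.lo 1 n le_rfl hn)
    refine le_mul_of_one_le_left hφ1.le (Real.one_le_rpow ?_ hδ.le)
    rw [Nat.cast_one, div_one]
    exact hn1
  have h5 : ColF P φ → DenseF P φ := col_denseF hφ.pos
  exact ⟨⟨h1, fun h => h3 (h2 h)⟩, ⟨fun h => h2 (h1 h), h3⟩, ⟨fun h => h4 (h1 h), h5⟩⟩

/-! ### Without hypotheses on the growth -/

/-- `q` disjoint copies -/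
def copies {V : Type} (q : ℕ) (G : SimpleGraph V) : SimpleGraph (Fin q × V) where
  Adj x y := x.1 = y.1 ∧ G.Adj x.2 y.2
  symm := ⟨fun x y h => ⟨h.1.symm, h.2.symm⟩⟩
  loopless := ⟨fun x h => G.loopless.irrefl x.2 h.2⟩

lemma copies_locInj {V : Type} (q : ℕ) (G : SimpleGraph V) :
    LocInj (copies q G) G Prod.snd where
  hom x y h := h.2
  inj x y y' h h' he := Prod.ext (h.1.symm.trans h'.1) he

lemma vol_copies {V : Type} [Fintype V] (q : ℕ) (G : SimpleGraph V) :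
    q * vol G ≤ vol (copies q G) := by
  rw [vol, vol, Fintype.sum_prod_type]
  have h : ∀ i : Fin q, ∑ x, (nb G x).card ≤ ∑ x, (nb (copies q G) (i, x)).card := by
    intro i
    refine Finset.sum_le_sum fun x _ => ?_
    refine Finset.card_le_card_of_injOn (fun y => (i, y)) ?_ ?_
    · intro y hy
      exact Finset.mem_coe.mpr (mem_nb.mpr ⟨rfl, mem_nb.mp (Finset.mem_coe.mp hy)⟩)
    · intro y _ y' _ he
      exact congrArg Prod.snd he
  calc q * ∑ x, (nb G x).card = ∑ _i : Fin q, ∑ x, (nb G x).card := by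
        rw [Finset.sum_const, Finset.card_univ, Fintype.card_fin, smul_eq_mul]
    _ ≤ _ := Finset.sum_le_sum fun i _ => h i

/-- `f n` is the largest number of edges of a graph with `n` vertices and the property `P`. -/
def IsEx (P : ∀ V : Type, SimpleGraph V → Prop) (f : ℕ → ℕ) : Prop :=
  ∀ n, (∃ G : SimpleGraph (Fin n), P (Fin n) G ∧ G.edgeSet.ncard = f n) ∧
    ∀ G : SimpleGraph (Fin n), P (Fin n) G → G.edgeSet.ncard ≤ f n

lemma IsEx.super {P : ∀ V : Type, SimpleGraph V → Prop} (hP : LIClass P) {f : ℕ → ℕ}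
    (hf : IsEx P f) {m k : ℕ} (hm : 1 ≤ m) (hmk : m ≤ k) : k * f (m + 1) ≤ 4 * m * f (k + 1) := by
  obtain ⟨⟨G, hG, he⟩, _⟩ := hf (m + 1)
  set q : ℕ := (k + 1) / (m + 1) with hq
  have hq1 : 1 ≤ q := (Nat.one_le_div_iff (by omega)).mpr (by omega)
  have hq2 : q * (m + 1) ≤ k + 1 := Nat.div_mul_le_self _ _
  have hq3 : k + 1 < (q + 1) * (m + 1) := by
    rw [add_mul, one_mul]
    exact Nat.lt_div_mul_add (by omega)
  have hne : Nonempty (Fin q × Fin (m + 1)) := ⟨⟨⟨0, by omega⟩, 0⟩⟩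
  obtain ⟨e⟩ : Nonempty ((Fin q × Fin (m + 1)) ↪ Fin (k + 1)) :=
    Function.Embedding.nonempty_of_card_le (by
      rw [Fintype.card_prod, Fintype.card_fin, Fintype.card_fin, Fintype.card_fin]
      exact hq2)
  have h1 : P _ ((copies q G).map e) :=
    hP.pull _ _ _ (locInj_emb (copies q G) e) (hP.pull _ _ _ (copies_locInj q G) hG)
  have h2 := (hf (k + 1)).2 _ h1
  have h3 : q * vol G ≤ vol ((copies q G).map e) := (vol_copies q G).trans (vol_emb _ e)
  rw [vol_eq, vol_eq, he] at h3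
  have h4 : q * f (m + 1) ≤ f (k + 1) := by nlinarith
  have h5 : k ≤ 4 * q * m := by nlinarith
  calc k * f (m + 1) ≤ 4 * q * m * f (m + 1) := Nat.mul_le_mul_right _ h5
    _ = 4 * m * (q * f (m + 1)) := by ring
    _ ≤ 4 * m * f (k + 1) := Nat.mul_le_mul_left _ h4

lemma IsEx.pos {P : ∀ V : Type, SimpleGraph V → Prop} (hP : LIClass P) {f : ℕ → ℕ}
    (hf : IsEx P f) {k : ℕ} (hk : 1 ≤ k) : 1 ≤ f (k + 1) := by
  let G : SimpleGraph (Fin (k + 1)) := SimpleGraph.edge ⟨0, by omega⟩ ⟨1, by omega⟩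
  have hG : P _ G := hP.single G (by
    intro x y z hxy hxz
    rw [SimpleGraph.edge_adj] at hxy hxz
    rcases hxy.1 with ⟨h1, h2⟩ | ⟨h1, h2⟩ <;> rcases hxz.1 with ⟨h3, h4⟩ | ⟨h3, h4⟩
    · exact h2.trans h4.symm
    · exact absurd (h1.symm.trans h3) (by simp)
    · exact absurd (h1.symm.trans h3) (by simp)
    · exact h2.trans h4.symm)
  refine le_trans ?_ ((hf (k + 1)).2 G hG)
  refine (Set.ncard_pos (Set.toFinite _)).mpr ⟨s(⟨0, by omega⟩, ⟨1, by omega⟩), ?_⟩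
  rw [SimpleGraph.mem_edgeSet, SimpleGraph.edge_adj]
  exact ⟨Or.inl ⟨rfl, rfl⟩, by simp⟩

/-- **Decompositions, without any hypothesis on the growth of `f`.** -/
theorem dec_free {P : ∀ V : Type, SimpleGraph V → Prop} (hP : LIClass P) {f : ℕ → ℕ}
    (hf : IsEx P f) (δ : ℝ) (hδ : 0 < δ) : ∃ C : ℝ, ∀ (V : Type) [Finite V] (H : SimpleGraph V)
      (d : ℕ), 1 ≤ d → (∀ x, (H.neighborSet x).ncard ≤ d) → ∃ M k : ℕ, 1 ≤ k ∧ k ≤ d ∧
        (M : ℝ) ≤ C * (((d : ℝ) / k) ^ δ * ((k : ℝ) ^ 2 / f (k + 1))) ∧ UnionOf (P V) H M := by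
  have hfp : ∀ n : ℕ, 1 ≤ n → (0 : ℝ) < f (n + 1) := fun n hn => by
    exact_mod_cast hf.pos hP hn
  obtain ⟨Φ, hΦ, hge, hat⟩ := env_reg (g := fun k : ℕ => (k : ℝ) ^ 2 / f (k + 1)) (δ := min δ 1)
    (L := 4) (lt_min hδ one_pos) (min_le_right _ _) (by norm_num) (fun n hn => by
      have := hfp n hn
      have hn0 : (0 : ℝ) < n := by exact_mod_cast hn
      positivity) (fun m n hm hmn => by
      have h1 := hfp m hm
      have h2 := hfp n (by omega)
      have hm0 : (0 : ℝ) < m := by exact_mod_cast hm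
      have hn0 : (0 : ℝ) < n := by exact_mod_cast (by omega : 0 < n)
      have h3 : (n : ℝ) * f (m + 1) ≤ 4 * m * f (n + 1) := by
        exact_mod_cast hf.super hP hm hmn
      show (n : ℝ) ^ 2 / f (n + 1) ≤ 4 * ((n : ℝ) / m * ((m : ℝ) ^ 2 / f (m + 1)))
      have h4 : 4 * ((n : ℝ) / m * ((m : ℝ) ^ 2 / f (m + 1))) = n * (4 * m) / f (m + 1) := by
        field_simp
      rw [h4, div_le_div_iff₀ h2 h1]
      calc (n : ℝ) ^ 2 * f (m + 1) = n * (n * f (m + 1)) := by ring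
        _ ≤ n * (4 * m * f (n + 1)) := mul_le_mul_of_nonneg_left h3 hn0.le
        _ = _ := by ring)
  have hD : DenseF P Φ := by
    refine ⟨1 / 4, by norm_num, 2, fun n hn => ?_⟩
    obtain ⟨⟨G, hG, he⟩, _⟩ := hf n
    refine ⟨G, hG, ?_⟩
    rw [he]
    obtain ⟨k, rfl⟩ : ∃ k, n = k + 1 := ⟨n - 1, by omega⟩
    have hk1 : 1 ≤ k := by omega
    have hk0 : (1 : ℝ) ≤ k := by exact_mod_cast hk1
    have h1 := hfp k hk1
    have h2 : (k : ℝ) ^ 2 / f (k + 1) ≤ Φ (k + 1) :=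
      (hge k hk1).trans (hΦ.mono (lt_min hδ one_pos) hk1 (by omega))
    have h3 : 0 < Φ (k + 1) := hΦ.posn (by omega)
    rw [div_le_iff₀ h1] at h2
    rw [← mul_div_assoc, div_le_iff₀ h3]
    push_cast
    nlinarith
  obtain ⟨C, hC⟩ := dense_decF hP hΦ (lt_min hδ one_pos) hD
  refine ⟨max C 1, fun V _ H d hd hH => ?_⟩
  obtain ⟨M, hM, F, hF, hc⟩ := hC V H d hd hH
  obtain ⟨k, hk1, hk2, hk⟩ := hat d hd
  have hC0 : 0 < max C 1 := lt_of_lt_of_le one_pos (le_max_right _ _)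
  have hk0 : (0 : ℝ) < k := by exact_mod_cast hk1
  have hfk := hfp k hk1
  have h1 : ((d : ℝ) / k) ^ (min δ 1) ≤ ((d : ℝ) / k) ^ δ := by
    refine Real.rpow_le_rpow_of_exponent_le ?_ (min_le_left _ _)
    rw [one_le_div hk0]
    exact_mod_cast hk2
  refine ⟨M, k, hk1, hk2, ?_, F, fun i => ⟨(hF i).1, (hF i).2.1⟩, hc⟩
  calc (M : ℝ) ≤ C * Φ d := hM
    _ ≤ max C 1 * Φ d := mul_le_mul_of_nonneg_right (le_max_left _ _) (hΦ.posn hd).le
    _ = max C 1 * (((d : ℝ) / k) ^ (min δ 1) * ((k : ℝ) ^ 2 / f (k + 1))) := by rw [hk]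
    _ ≤ _ := by
        refine mul_le_mul_of_nonneg_left ?_ hC0.le
        exact mul_le_mul_of_nonneg_right h1 (by positivity)

/-- the lower bound: a complete graph needs many pieces -/
theorem dec_lower {P : ∀ V : Type, SimpleGraph V → Prop} {f : ℕ → ℕ} (hf : IsEx P f) (k M : ℕ)
    (h : UnionOf (P (Fin (k + 1))) ⊤ M) : k * (k + 1) ≤ 2 * (M * f (k + 1)) := by
  obtain ⟨F, hF, hc⟩ := h
  have h1 := vol_eq (⊤ : SimpleGraph (Fin (k + 1)))
  rw [vol_top] at h1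
  have hsub : (⊤ : SimpleGraph (Fin (k + 1))).edgeSet ⊆ ⋃ i, (F i).edgeSet := by
    intro e he
    induction e using Sym2.ind with
    | _ x y =>
      rw [SimpleGraph.mem_edgeSet, hc, SimpleGraph.iSup_adj] at he
      obtain ⟨i, hi⟩ := he
      exact Set.mem_iUnion.mpr ⟨i, hi⟩
  have hsum : (⊤ : SimpleGraph (Fin (k + 1))).edgeSet.ncard ≤ ∑ i, (F i).edgeSet.ncard := by
    refine (Set.ncard_le_ncard hsub (Set.toFinite _)).trans ?_
    have : ∀ s : Finset (Fin M), (⋃ i ∈ s, (F i).edgeSet).ncard ≤ ∑ i ∈ s, (F i).edgeSet.ncard := by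
      intro s
      induction s using Finset.induction_on with
      | empty => simp
      | insert a s ha ih =>
        rw [Finset.sum_insert ha, Finset.set_biUnion_insert]
        exact (Set.ncard_union_le _ _).trans (Nat.add_le_add_left ih _)
    simpa using this univ
  have h2 : ∑ i, (F i).edgeSet.ncard ≤ M * f (k + 1) := by
    calc ∑ i, (F i).edgeSet.ncard ≤ ∑ _i : Fin M, f (k + 1) :=
          Finset.sum_le_sum fun i _ => (hf (k + 1)).2 _ (hF i).2
      _ = M * f (k + 1) := by simp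
  have h3 : (k + 1) * (k + 1 - 1) = k * (k + 1) := by
    rw [Nat.add_sub_cancel]
    ring
  rw [h3] at h1
  omega

end Pool.Agent.H46.EX
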