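import Mathlib
import Pool.Agent.H46.EX.EquivF

/-!
# The equivalences for a class which contains a suitable class as dense as itself
-/

set_option autoImplicit false
set_option linter.all false

namespace Pool.Agent.H46.EX

open Finset Classical SimpleGraph Pool.Agent.H55

lemma exists_isEx {P : ∀ V : Type, SimpleGraph V → Prop} (hbot : ∀ n : ℕ, P (Fin n) ⊥) :
    ∃ f : ℕ → ℕ, IsEx P f := by
  refine ⟨fun n => sSup {e | ∃ G : SimpleGraph (Fin n), P (Fin n) G ∧ G.edgeSet.ncard = e},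
    fun n => ?_⟩
  have hbdd : BddAbove {e | ∃ G : SimpleGraph (Fin n), P (Fin n) G ∧ G.edgeSet.ncard = e} := by
    refine ⟨Nat.card (Sym2 (Fin n)), ?_⟩
    rintro e ⟨G, -, rfl⟩
    exact Set.ncard_le_card _
  constructor
  · exact Nat.sSup_mem (s := {e | ∃ G : SimpleGraph (Fin n), P (Fin n) G ∧
      G.edgeSet.ncard = e}) ⟨_, ⊥, hbot n, rfl⟩ hbdd
  · intro G hG
    exact le_csSup hbdd ⟨G, hG, rfl⟩

/-- every graph of `Q` contains a graph of `P` with at least `1 / A` of the edges -/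
def Frac (P Q : ∀ V : Type, SimpleGraph V → Prop) (A : ℝ) : Prop :=
  ∀ (n : ℕ) (G : SimpleGraph (Fin n)), Q (Fin n) G → ∃ G' : SimpleGraph (Fin n), P (Fin n) G' ∧
    (G.edgeSet.ncard : ℝ) ≤ A * (G'.edgeSet.ncard : ℝ)

/-- **The four statements are equivalent for `Q`.** -/
theorem four_equivQ {P Q : ∀ V : Type, SimpleGraph V → Prop} (hP : LIClass P)
    (hmono : ∀ (V : Type) [Finite V] (F G : SimpleGraph V), F ≤ G → Q V G → Q V F)
    (hPQ : ∀ (V : Type) [Finite V] (G : SimpleGraph V), P V G → Q V G)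
    {A : ℝ} (hA : 0 < A) (hfr : Frac P Q A) {φ : ℕ → ℝ} {δ L : ℝ}
    (hφ : WReg φ δ L) (hδ : 0 < δ) :
    (DenseF Q φ ↔ DecF Q φ) ∧ (DenseF Q φ ↔ RelF Q φ) ∧ (DenseF Q φ ↔ ColF Q φ) := by
  have hL := hφ.one_le
  have hL0 : 0 < L := by linarith
  have hbot : ∀ (V : Type) [Finite V], Q V ⊥ := fun V _ => hPQ V ⊥ (hP.single ⊥ (by simp))
  have h1 : DenseF Q φ → DecF Q φ := by
    rintro ⟨c, hc, N, hN⟩
    have hD : DenseF P φ := by
      refine ⟨c / A, by positivity, N, fun n hn => ?_⟩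
      obtain ⟨G, hG, he⟩ := hN n hn
      obtain ⟨G', hG', he'⟩ := hfr n G hG
      refine ⟨G', hG', ?_⟩
      rw [div_mul_eq_mul_div, div_le_iff₀ hA, mul_comm (G'.edgeSet.ncard : ℝ)]
      exact he.trans he'
    obtain ⟨C, hC⟩ := (four_equivF hP hφ hδ).1.mp hD
    refine ⟨C, fun V _ H d hd hH => ?_⟩
    obtain ⟨M, hM, F, hF, hc⟩ := hC V H d hd hH
    exact ⟨M, hM, F, fun i => ⟨(hF i).1, hPQ V _ (hF i).2.1, (hF i).2.2⟩, hc⟩
  have h2 : DecF Q φ → RelF Q φ := dec_relF hbot hφ.pos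
  have h3 : RelF Q φ → DenseF Q φ := rel_denseF hφ.pos
  have hφ1 := hφ.pos 1 le_rfl
  have h4 : DecF Q φ → ColF Q φ := by
    refine dec_colF hmono hbot (a := φ 1 / L) (by positivity) ?_
    intro n hn
    have hn1 : (1 : ℝ) ≤ n := by exact_mod_cast hn
    rw [div_le_iff₀ hL0, mul_comm]
    refine le_trans ?_ (hφ.lo 1 n le_rfl hn)
    refine le_mul_of_one_le_left hφ1.le (Real.one_le_rpow ?_ hδ.le)
    rw [Nat.cast_one, div_one]
    exact hn1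
  have h5 : ColF Q φ → DenseF Q φ := col_denseF hφ.pos
  exact ⟨⟨h1, fun h => h3 (h2 h)⟩, ⟨fun h => h2 (h1 h), h3⟩, ⟨fun h => h4 (h1 h), h5⟩⟩

/-- **Decompositions for `Q`, without any hypothesis on the growth.** -/
theorem dec_freeQ {P Q : ∀ V : Type, SimpleGraph V → Prop} (hP : LIClass P)
    (hPQ : ∀ (V : Type) [Finite V] (G : SimpleGraph V), P V G → Q V G)
    {A : ℝ} (hA : 0 < A) (hfr : Frac P Q A) {f : ℕ → ℕ}
    (hf : IsEx Q f) (δ : ℝ) (hδ : 0 < δ) : ∃ C : ℝ, ∀ (V : Type) [Finite V] (H : SimpleGraph V)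
      (d : ℕ), 1 ≤ d → (∀ x, (H.neighborSet x).ncard ≤ d) → ∃ M k : ℕ, 1 ≤ k ∧ k ≤ d ∧
        (M : ℝ) ≤ C * (((d : ℝ) / k) ^ δ * ((k : ℝ) ^ 2 / f (k + 1))) ∧ UnionOf (Q V) H M := by
  obtain ⟨p, hp⟩ := exists_isEx (P := P) (fun n => hP.single ⊥ (by simp))
  obtain ⟨C, hC⟩ := dec_free hP hp δ hδ
  refine ⟨max C 1 * A, fun V _ H d hd hH => ?_⟩
  obtain ⟨M, k, hk1, hk2, hM, F, hF, hc⟩ := hC V H d hd hH
  refine ⟨M, k, hk1, hk2, ?_, F, fun i => ⟨(hF i).1, hPQ V _ (hF i).2⟩, hc⟩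
  have hpk : (0 : ℝ) < p (k + 1) := by exact_mod_cast hp.pos hP hk1
  have h1 : (f (k + 1) : ℝ) ≤ A * p (k + 1) := by
    obtain ⟨⟨G, hG, he⟩, _⟩ := hf (k + 1)
    obtain ⟨G', hG', he'⟩ := hfr (k + 1) G hG
    rw [he] at he'
    refine he'.trans (mul_le_mul_of_nonneg_left ?_ hA.le)
    exact_mod_cast (hp (k + 1)).2 G' hG'
  have h0 : (0 : ℝ) < f (k + 1) := by
    obtain ⟨⟨G, hG, he⟩, _⟩ := hp (k + 1)
    have h2 := (hf (k + 1)).2 G (hPQ _ G hG)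
    rw [he] at h2
    have h3 := hp.pos hP hk1
    exact_mod_cast lt_of_lt_of_le h3 h2
  have hC0 : 0 < max C 1 := lt_of_lt_of_le one_pos (le_max_right _ _)
  have h2 : (k : ℝ) ^ 2 / p (k + 1) ≤ A * ((k : ℝ) ^ 2 / f (k + 1)) := by
    rw [← mul_div_assoc, div_le_div_iff₀ hpk h0]
    calc (k : ℝ) ^ 2 * f (k + 1) ≤ (k : ℝ) ^ 2 * (A * p (k + 1)) :=
          mul_le_mul_of_nonneg_left h1 (by positivity)
      _ = _ := by ring
  calc (M : ℝ) ≤ C * (((d : ℝ) / k) ^ δ * ((k : ℝ) ^ 2 / p (k + 1))) := hM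
    _ ≤ max C 1 * (((d : ℝ) / k) ^ δ * ((k : ℝ) ^ 2 / p (k + 1))) :=
        mul_le_mul_of_nonneg_right (le_max_left _ _) (by positivity)
    _ ≤ max C 1 * (((d : ℝ) / k) ^ δ * (A * ((k : ℝ) ^ 2 / f (k + 1)))) := by
        refine mul_le_mul_of_nonneg_left ?_ hC0.le
        exact mul_le_mul_of_nonneg_left h2 (by positivity)
    _ = _ := by ring

end Pool.Agent.H46.EX
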